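import Mathlib

/-!
# MP_1b3940_lc: all r.e. languages are in `NegO^i TxtBc^*` for every `i ≥ 1`

The learner guesses, on a segment `σ` of length `n`, the least `l` such that `W_l` is consistent with
`σ` and, for all `l' < l` for which `W_{l'}` contains the positive data, `W_l ∩ [0,n) ⊆ W_{l'}`; its
program enumerates `W_l` with limit approximations of this `l`.  The single negative datum needed is
an element of the smallest wrong guess.
-/

set_option autoImplicit false

namespace Pool.Agent.Results.MP_1b3940_lc.OneCounterexample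

open Filter

/-- `φ` is an acceptable numbering of the partial computable functions: it is a partial computable
function of two arguments, and every numbering which is one can be computably translated into
`φ`. -/
def Acceptable (φ : ℕ → ℕ →. ℕ) : Prop :=
  Partrec₂ φ ∧ ∀ ψ : ℕ → ℕ →. ℕ, Partrec₂ ψ → ∃ t : ℕ → ℕ, Computable t ∧ ∀ e, φ (t e) = ψ e

/-- `W_e`, the domain of `φ_e`. -/
def W (φ : ℕ → ℕ →. ℕ) (e : ℕ) : Set ℕ := {x | (φ e x).Dom}

/-- The items of information: `some (x, true)`, `some (x, false)`, or `none` for `#`. -/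
abbrev Item : Type := Option (ℕ × Bool)

/-- The positive information of a sequence. -/
def PosInfo (I : ℕ → Item) : Set ℕ := {x | ∃ n, I n = some (x, true)}

/-- The negative information of a sequence. -/
def NegInfo (I : ℕ → Item) : Set ℕ := {x | ∃ n, I n = some (x, false)}

/-- `I` is an information sequence: no `x` occurs both as positive and as negative information. -/
def IsInfo (I : ℕ → Item) : Prop := ∀ x, ¬ (x ∈ PosInfo I ∧ x ∈ NegInfo I)

/-- The initial segment of length `n`. -/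
def seg (I : ℕ → Item) (n : ℕ) : List Item := (List.range n).map I

/-- `M` identifies `L` in the sense of `NegO^i TxtBc^*`. -/
def Identifies (φ : ℕ → ℕ →. ℕ) (i : ℕ) (M : List Item → ℕ) (L : Set ℕ) : Prop :=
  ∃ S : Finset ℕ, S.card ≤ i ∧ (∀ x ∈ S, x ∉ L) ∧
    ∀ I : ℕ → Item, IsInfo I → PosInfo I = L → (∀ x ∈ S, x ∈ NegInfo I) →
      (∀ x ∈ NegInfo I, x ∉ L) →
      ∃ N, ∀ n, N ≤ n → (symmDiff (W φ (M (seg I n))) L).Finite

/-- The class of all r.e. languages is in `NegO^i TxtBc^*`. -/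
def AllRE (φ : ℕ → ℕ →. ℕ) (i : ℕ) : Prop :=
  ∃ M : List Item → ℕ, Computable M ∧
    ∀ L : Set ℕ, REPred (fun x => x ∈ L) → Identifies φ i M L

/-! ### Primitive recursive predicates -/

section Prim

variable {α β : Type} [Primcodable α] [Primcodable β]

theorem all_mem {R : α → β → Prop} (h : PrimrecRel R) {f : β → List α} (hf : Primrec f) :
    PrimrecPred fun b => ∀ x ∈ f b, R x b :=
  h.forall_mem_list.comp hf Primrec.id

theorem all_lt {R : ℕ → β → Prop} (h : PrimrecRel R) {f : β → ℕ} (hf : Primrec f) :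
    PrimrecPred fun b => ∀ x < f b, R x b :=
  (all_mem h (Primrec.list_range.comp hf)).of_eq (by simp)

theorem ex_lt {R : ℕ → β → Prop} (h : PrimrecRel R) {f : β → ℕ} (hf : Primrec f) :
    PrimrecPred fun b => ∃ x < f b, R x b :=
  (h.exists_mem_list.comp (Primrec.list_range.comp hf) Primrec.id).of_eq (by simp)

end Prim

section Learner

/-- `x` is enumerated into `W_e` within `s` steps -/
def inW (c : Nat.Partrec.Code) (s e x : ℕ) : Prop :=
  (Nat.Partrec.Code.evaln s c (Nat.pair e x)).isSome = true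

/-- the item is positive information -/
def isPos (o : Item) : Prop := (o.getD (0, false)).2 = true

/-- the item is negative information -/
def isNeg (o : Item) : Prop := (o.getD (0, true)).2 = false

/-- the number of the item -/
def num (o : Item) : ℕ := (o.getD (0, false)).1

/-- all positive data are in `W_{l,s}` -/
def posIn (c : Nat.Partrec.Code) (σ : List Item) (s l : ℕ) : Prop :=
  ∀ o ∈ σ, isPos o → inW c s l (num o)

/-- no negative data are in `W_{l,s}` -/
def negOut (c : Nat.Partrec.Code) (σ : List Item) (s l : ℕ) : Prop :=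
  ∀ o ∈ σ, isNeg o → ¬ inW c s l (num o)

/-- approximation of the test for `l` -/
def Q (c : Nat.Partrec.Code) (σ : List Item) (s l : ℕ) : Prop :=
  posIn c σ s l ∧ negOut c σ s l ∧
    ∀ l' < l, ¬ posIn c σ s l' ∨ ∀ x < σ.length, ¬ inW c s l x ∨ inW c s l' x

/-- `x` is enumerated at the stage `s` by the program of the learner -/
def R (c : Nat.Partrec.Code) (σ : List Item) (x s : ℕ) : Prop :=
  ∃ l < s + 1, Q c σ s l ∧ (∀ l' < l, ¬ Q c σ s l') ∧ inW c s l x

theorem prim_inW (c : Nat.Partrec.Code) :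
    PrimrecPred fun q : ℕ × ℕ × ℕ => inW c q.1 q.2.1 q.2.2 := by
  unfold inW
  refine Primrec.eq.comp ?_ (Primrec.const true)
  refine Primrec.option_isSome.comp ?_
  exact Nat.Partrec.Code.primrec_evaln.comp
    (Primrec.pair (Primrec.pair Primrec.fst (Primrec.const c))
      (Primrec₂.natPair.comp (Primrec.fst.comp Primrec.snd) (Primrec.snd.comp Primrec.snd)))

theorem prim_inW' (c : Nat.Partrec.Code) {β : Type} [Primcodable β] {f g h : β → ℕ}
    (hf : Primrec f) (hg : Primrec g) (hh : Primrec h) :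
    PrimrecPred fun b => inW c (f b) (g b) (h b) :=
  (prim_inW c).comp (Primrec.pair hf (Primrec.pair hg hh))

theorem prim_num : Primrec num :=
  Primrec.fst.comp (Primrec.option_getD.comp Primrec.id (Primrec.const _))

theorem prim_isPos : PrimrecPred isPos :=
  Primrec.eq.comp (Primrec.snd.comp (Primrec.option_getD.comp Primrec.id (Primrec.const _)))
    (Primrec.const true)

theorem prim_isNeg : PrimrecPred isNeg :=
  Primrec.eq.comp (Primrec.snd.comp (Primrec.option_getD.comp Primrec.id (Primrec.const _)))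
    (Primrec.const false)

theorem prim_posIn (c : Nat.Partrec.Code) {β : Type} [Primcodable β] {f : β → List Item}
    {g h : β → ℕ} (hf : Primrec f) (hg : Primrec g) (hh : Primrec h) :
    PrimrecPred fun b => posIn c (f b) (g b) (h b) := by
  have h1 : PrimrecRel fun (o : Item) (b : β) => (¬ isPos o) ∨ inW c (g b) (h b) (num o) :=
    ((prim_isPos.comp Primrec.fst).not).or (prim_inW' c (hg.comp Primrec.snd)
      (hh.comp Primrec.snd) (prim_num.comp Primrec.fst))
  refine (all_mem h1 hf).of_eq fun b => ?_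
  unfold posIn
  simp only [imp_iff_not_or]

theorem prim_negOut (c : Nat.Partrec.Code) {β : Type} [Primcodable β] {f : β → List Item}
    {g h : β → ℕ} (hf : Primrec f) (hg : Primrec g) (hh : Primrec h) :
    PrimrecPred fun b => negOut c (f b) (g b) (h b) := by
  have h1 : PrimrecRel fun (o : Item) (b : β) => (¬ isNeg o) ∨ ¬ inW c (g b) (h b) (num o) :=
    ((prim_isNeg.comp Primrec.fst).not).or (prim_inW' c (hg.comp Primrec.snd)
      (hh.comp Primrec.snd) (prim_num.comp Primrec.fst)).not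
  refine (all_mem h1 hf).of_eq fun b => ?_
  unfold negOut
  simp only [imp_iff_not_or]

theorem prim_Q (c : Nat.Partrec.Code) {β : Type} [Primcodable β] {f : β → List Item}
    {g h : β → ℕ} (hf : Primrec f) (hg : Primrec g) (hh : Primrec h) :
    PrimrecPred fun b => Q c (f b) (g b) (h b) := by
  have h1 : PrimrecRel fun (x : ℕ) (b : ℕ × β) =>
      ¬ inW c (g b.2) (h b.2) x ∨ inW c (g b.2) b.1 x :=
    (prim_inW' c (hg.comp (Primrec.snd.comp Primrec.snd))
      (hh.comp (Primrec.snd.comp Primrec.snd)) Primrec.fst).not.or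
    (prim_inW' c (hg.comp (Primrec.snd.comp Primrec.snd))
      (Primrec.fst.comp Primrec.snd) Primrec.fst)
  have h2 : PrimrecRel fun (l' : ℕ) (b : β) => ¬ posIn c (f b) (g b) l' ∨
      ∀ x < (f b).length, ¬ inW c (g b) (h b) x ∨ inW c (g b) l' x :=
    (prim_posIn c (hf.comp Primrec.snd) (hg.comp Primrec.snd) Primrec.fst).not.or
      (all_lt h1 (Primrec.list_length.comp (hf.comp Primrec.snd)))
  exact (prim_posIn c hf hg hh).and ((prim_negOut c hf hg hh).and (all_lt h2 hh))

theorem prim_R (c : Nat.Partrec.Code) {β : Type} [Primcodable β] {f : β → List Item}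
    {g h : β → ℕ} (hf : Primrec f) (hg : Primrec g) (hh : Primrec h) :
    PrimrecPred fun b => R c (f b) (g b) (h b) := by
  have h1 : PrimrecRel fun (l' : ℕ) (b : ℕ × β) => ¬ Q c (f b.2) (h b.2) l' :=
    (prim_Q c (hf.comp (Primrec.snd.comp Primrec.snd)) (hh.comp (Primrec.snd.comp Primrec.snd))
      Primrec.fst).not
  have h2 : PrimrecRel fun (l : ℕ) (b : β) => Q c (f b) (h b) l ∧
      (∀ l' < l, ¬ Q c (f b) (h b) l') ∧ inW c (h b) l (g b) :=
    (prim_Q c (hf.comp Primrec.snd) (hh.comp Primrec.snd) Primrec.fst).and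
      ((all_lt h1 Primrec.fst).and (prim_inW' c (hh.comp Primrec.snd) Primrec.fst
        (hg.comp Primrec.snd)))
  exact ex_lt h2 (Primrec.succ.comp hh)

end Learner

section Exist

variable {φ : ℕ → ℕ →. ℕ}

theorem exists_code (hφ : Partrec₂ φ) :
    ∃ c : Nat.Partrec.Code, ∀ e x, c.eval (Nat.pair e x) = φ e x := by
  have h1 : Partrec fun n : ℕ => φ n.unpair.1 n.unpair.2 :=
    Partrec₂.comp hφ (Computable.fst.comp Computable.unpair) (Computable.snd.comp Computable.unpair)
  obtain ⟨c, hc⟩ := Nat.Partrec.Code.exists_code.1 (Partrec.nat_iff.1 h1)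
  refine ⟨c, fun e x => ?_⟩
  rw [hc]
  simp

theorem mem_W {c : Nat.Partrec.Code} (hc : ∀ e x, c.eval (Nat.pair e x) = φ e x) (e x : ℕ) :
    x ∈ W φ e ↔ ∃ s, inW c s e x := by
  have h0 : x ∈ W φ e ↔ (φ e x).Dom := Iff.rfl
  rw [h0, ← hc, Part.dom_iff_mem]
  constructor
  · rintro ⟨y, hy⟩
    obtain ⟨s, hs⟩ := Nat.Partrec.Code.evaln_complete.1 hy
    exact ⟨s, Option.isSome_iff_exists.2 ⟨y, hs⟩⟩
  · rintro ⟨s, hs⟩
    obtain ⟨y, hy⟩ := Option.isSome_iff_exists.1 hs
    exact ⟨y, Nat.Partrec.Code.evaln_sound hy⟩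

theorem inW_mono {c : Nat.Partrec.Code} {s s' e x : ℕ} (hs : s ≤ s') (h : inW c s e x) :
    inW c s' e x := by
  obtain ⟨y, hy⟩ := Option.isSome_iff_exists.1 h
  exact Option.isSome_iff_exists.2 ⟨y, Nat.Partrec.Code.evaln_mono hs hy⟩

theorem inW_bound {c : Nat.Partrec.Code} {s e x : ℕ} (h : inW c s e x) : x < s := by
  obtain ⟨y, hy⟩ := Option.isSome_iff_exists.1 h
  exact lt_of_le_of_lt (Nat.right_le_pair e x) (Nat.Partrec.Code.evaln_bound hy)

theorem exists_learner (hφ : Acceptable φ) (c : Nat.Partrec.Code) :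
    ∃ M : List Item → ℕ, Computable M ∧ ∀ σ x, x ∈ W φ (M σ) ↔ ∃ s, R c σ x s := by
  classical
  let ψ : ℕ → ℕ →. ℕ := fun e x =>
    Nat.rfind fun s => Part.some (decide (R c ((Encodable.decode (α := List Item) e).getD []) x s))
  have hψ : Partrec₂ ψ := by
    refine Partrec.rfind ?_
    obtain ⟨_, h1⟩ := prim_R c (β := (ℕ × ℕ) × ℕ)
      (f := fun b => (Encodable.decode (α := List Item) b.1.1).getD [])
      (g := fun b => b.1.2) (h := fun b => b.2)
      (Primrec.option_getD.comp (Primrec.decode.comp (Primrec.fst.comp Primrec.fst))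
        (Primrec.const [])) (Primrec.snd.comp Primrec.fst) Primrec.snd
    have h2 := h1.to_comp.partrec
    refine h2.of_eq fun b => ?_
    simp
  obtain ⟨t, ht, htψ⟩ := hφ.2 ψ hψ
  refine ⟨fun σ => t (Encodable.encode σ), ht.comp Computable.encode, fun σ x => ?_⟩
  have h0 : x ∈ W φ (t (Encodable.encode σ)) ↔ (φ (t (Encodable.encode σ)) x).Dom := Iff.rfl
  rw [h0, htψ]
  have h1 : ψ (Encodable.encode σ) x =
      Nat.rfind fun s => (Part.some (decide (R c σ x s)) : Part Bool) := by
    simp only [ψ, Encodable.encodek, Option.getD_some]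
  rw [h1]
  refine Nat.rfind_dom'.trans ?_
  simp

theorem exists_index (hφ : Acceptable φ) {L : Set ℕ} (hL : REPred fun x => x ∈ L) :
    ∃ m, W φ m = L := by
  have h1 : Partrec₂ fun (_ : ℕ) (x : ℕ) =>
      (Part.assert (x ∈ L) fun _ => Part.some ()).map fun _ => 0 :=
    (Partrec.map hL (Computable.const 0).to₂).comp Computable.snd
  obtain ⟨t, -, ht⟩ := hφ.2 _ h1
  refine ⟨t 0, ?_⟩
  ext x
  have h0 : x ∈ W φ (t 0) ↔ (φ (t 0) x).Dom := Iff.rfl
  rw [h0, ht]
  simp [Part.assert]

end Exist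

section Limit

variable (φ : ℕ → ℕ →. ℕ)

/-- the limit of the test `Q` -/
def QL (σ : List Item) (l : ℕ) : Prop :=
  (∀ o ∈ σ, isPos o → num o ∈ W φ l) ∧ (∀ o ∈ σ, isNeg o → num o ∉ W φ l) ∧
    ∀ l' < l, ¬ (∀ o ∈ σ, isPos o → num o ∈ W φ l') ∨ ∀ x < σ.length, x ∉ W φ l ∨ x ∈ W φ l'

variable {φ} {c : Nat.Partrec.Code} (hW : ∀ e x, x ∈ W φ e ↔ ∃ s, inW c s e x)

include hW

theorem ev_inW (e x : ℕ) : ∀ᶠ s in atTop, (inW c s e x ↔ x ∈ W φ e) := by
  by_cases h : x ∈ W φ e
  · obtain ⟨s0, hs0⟩ := (hW e x).1 h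
    filter_upwards [eventually_ge_atTop s0] with s hs
    exact iff_of_true (inW_mono hs hs0) h
  · filter_upwards with s
    exact iff_of_false (fun h' => h ((hW e x).2 ⟨s, h'⟩)) h

theorem ev_pos (σ : List Item) (l : ℕ) :
    ∀ᶠ s in atTop, (posIn c σ s l ↔ ∀ o ∈ σ, isPos o → num o ∈ W φ l) := by
  have h1 : ∀ᶠ s in atTop, ∀ o ∈ {o | o ∈ σ}, (inW c s l (num o) ↔ num o ∈ W φ l) :=
    (eventually_all_finite (List.finite_toSet σ)).2 fun o _ => ev_inW hW l (num o)
  filter_upwards [h1] with s hs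
  unfold posIn
  exact forall₂_congr fun o ho => imp_congr Iff.rfl (hs o ho)

theorem ev_neg (σ : List Item) (l : ℕ) :
    ∀ᶠ s in atTop, (negOut c σ s l ↔ ∀ o ∈ σ, isNeg o → num o ∉ W φ l) := by
  have h1 : ∀ᶠ s in atTop, ∀ o ∈ {o | o ∈ σ}, (inW c s l (num o) ↔ num o ∈ W φ l) :=
    (eventually_all_finite (List.finite_toSet σ)).2 fun o _ => ev_inW hW l (num o)
  filter_upwards [h1] with s hs
  unfold negOut
  exact forall₂_congr fun o ho => imp_congr Iff.rfl (not_congr (hs o ho))

theorem ev_Q (σ : List Item) (l : ℕ) : ∀ᶠ s in atTop, (Q c σ s l ↔ QL φ σ l) := by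
  have h1 : ∀ᶠ s in atTop, ∀ l' ∈ Set.Iio l,
      (posIn c σ s l' ↔ ∀ o ∈ σ, isPos o → num o ∈ W φ l') :=
    (eventually_all_finite (Set.finite_Iio l)).2 fun l' _ => ev_pos hW σ l'
  have h2 : ∀ᶠ s in atTop, ∀ x ∈ Set.Iio σ.length, (inW c s l x ↔ x ∈ W φ l) :=
    (eventually_all_finite (Set.finite_Iio _)).2 fun x _ => ev_inW hW l x
  have h3 : ∀ᶠ s in atTop, ∀ l' ∈ Set.Iio l, ∀ x ∈ Set.Iio σ.length,
      (inW c s l' x ↔ x ∈ W φ l') :=
    (eventually_all_finite (Set.finite_Iio l)).2 fun l' _ =>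
      (eventually_all_finite (Set.finite_Iio _)).2 fun x _ => ev_inW hW l' x
  filter_upwards [ev_pos hW σ l, ev_neg hW σ l, h1, h2, h3] with s e1 e2 e3 e4 e5
  unfold Q QL
  refine and_congr e1 (and_congr e2 (forall₂_congr fun l' hl' => or_congr (not_congr (e3 l' hl'))
    (forall₂_congr fun x hx => or_congr (not_congr (e4 x hx)) (e5 l' hl' x hx))))

/-- The program of the learner computes a finite variant of the set of its guess. -/
theorem finite_variant {M : List Item → ℕ} (hM : ∀ σ x, x ∈ W φ (M σ) ↔ ∃ s, R c σ x s)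
    (σ : List Item) (l : ℕ) (hl : QL φ σ l) (hmin : ∀ l' < l, ¬ QL φ σ l') :
    (symmDiff (W φ (M σ)) (W φ l)).Finite := by
  have h1 : ∀ᶠ s in atTop, ∀ l' ∈ Set.Iic l, (Q c σ s l' ↔ QL φ σ l') :=
    (eventually_all_finite (Set.finite_Iic l)).2 fun l' _ => ev_Q hW σ l'
  obtain ⟨s0, hs0⟩ := eventually_atTop.1 (h1.and (eventually_ge_atTop l))
  have h2 : ∀ s, s0 ≤ s → ∀ x, R c σ x s ↔ inW c s l x := by
    intro s hs x
    obtain ⟨h3, h4⟩ := hs0 s hs
    have hQ : Q c σ s l := (h3 l Set.self_mem_Iic).2 hl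
    have hQ' : ∀ l' < l, ¬ Q c σ s l' := fun l' hl' h =>
      hmin l' hl' ((h3 l' (Set.mem_Iic.2 hl'.le)).1 h)
    constructor
    · rintro ⟨l', -, h5, h6, h7⟩
      rcases lt_trichotomy l' l with h | h | h
      · exact absurd h5 (hQ' l' h)
      · rw [← h]; exact h7
      · exact absurd hQ (h6 l h)
    · intro h
      exact ⟨l, by omega, hQ, hQ', h⟩
  refine (Set.finite_Iio s0).subset ?_
  rintro x (⟨hx, hx'⟩ | ⟨hx, hx'⟩)
  · obtain ⟨s, hs⟩ := (hM σ x).1 hx
    by_contra hlt
    have hlt' : s0 ≤ x := by simpa using hlt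
    have h3 : x < s := by
      obtain ⟨l', -, -, -, h7⟩ := hs
      exact inW_bound h7
    exact hx' ((hW l x).2 ⟨s, (h2 s (by omega) x).1 hs⟩)
  · exfalso
    obtain ⟨s, hs⟩ := (hW l x).1 hx
    exact hx' ((hM σ x).2 ⟨max s s0, (h2 _ (le_max_right _ _) x).2 (inW_mono (le_max_left _ _) hs)⟩)

end Limit

section Main

variable {φ : ℕ → ℕ →. ℕ}

theorem mem_seg {I : ℕ → Item} {n : ℕ} {o : Item} : o ∈ seg I n ↔ ∃ j < n, I j = o := by
  unfold seg
  simp

theorem pos_seg {I : ℕ → Item} {n : ℕ} {o : Item} (ho : o ∈ seg I n) (hp : isPos o) :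
    num o ∈ PosInfo I := by
  obtain ⟨j, -, rfl⟩ := mem_seg.1 ho
  refine ⟨j, ?_⟩
  unfold isPos at hp
  unfold num
  rcases hI : I j with _ | ⟨x, v⟩
  · rw [hI] at hp
    simp at hp
  · rw [hI] at hp
    simp only [Option.getD_some] at hp
    simp [hp]

theorem neg_seg {I : ℕ → Item} {n : ℕ} {o : Item} (ho : o ∈ seg I n) (hp : isNeg o) :
    num o ∈ NegInfo I := by
  obtain ⟨j, -, rfl⟩ := mem_seg.1 ho
  refine ⟨j, ?_⟩
  unfold isNeg at hp
  unfold num
  rcases hI : I j with _ | ⟨x, v⟩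
  · rw [hI] at hp
    simp at hp
  · rw [hI] at hp
    simp only [Option.getD_some] at hp
    simp [hp]

theorem symm_fin_trans {A B C : Set ℕ} (h1 : (symmDiff A B).Finite) (h2 : (symmDiff B C).Finite) :
    (symmDiff A C).Finite :=
  (h1.union h2).subset (symmDiff_triangle A B C)

open Classical in
theorem identifies {c : Nat.Partrec.Code} (hW : ∀ e x, x ∈ W φ e ↔ ∃ s, inW c s e x)
    {M : List Item → ℕ} (hM : ∀ σ x, x ∈ W φ (M σ) ↔ ∃ s, R c σ x s) (m : ℕ) (i : ℕ) (hi : 1 ≤ i) :
    Identifies φ i M (W φ m) := by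
  set L := W φ m with hL
  let Ch : Finset ℕ := (Finset.range m).filter fun l => L ⊆ W φ l ∧ ¬ (symmDiff (W φ l) L).Finite ∧
    ∀ l' < l, L ⊆ W φ l' → W φ l ⊆ W φ l'
  -- the hint
  obtain ⟨S, hS1, hS2, hS3⟩ : ∃ S : Finset ℕ, S.card ≤ 1 ∧ (∀ x ∈ S, x ∉ L) ∧
      ∀ l ∈ Ch, ∃ x ∈ S, x ∈ W φ l := by
    rcases Ch.eq_empty_or_nonempty with h | h
    · exact ⟨∅, by simp, by simp, by rw [h]; simp⟩
    · set l0 := Ch.max' h with hl0
      have hl0m := Ch.max'_mem h
      rw [← hl0] at hl0m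
      have h1 := (Finset.mem_filter.1 hl0m).2
      have h2 : ∃ x, x ∈ W φ l0 ∧ x ∉ L := by
        by_contra hno
        push Not at hno
        apply h1.2.1
        have : W φ l0 = L := Set.Subset.antisymm hno h1.1
        rw [this, symmDiff_self]
        exact Set.finite_empty
      obtain ⟨x, hx, hxL⟩ := h2
      refine ⟨{x}, by simp, by simpa using hxL, fun l hl => ⟨x, by simp, ?_⟩⟩
      rcases (Ch.le_max' l hl).eq_or_lt with h3 | h3
      · rw [h3]
        exact hx
      · exact h1.2.2 l h3 (Finset.mem_filter.1 hl).2.1 hx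
  refine ⟨S, hS1.trans hi, hS2, ?_⟩
  intro I hI hP hSI hN
  have hpos : ∀ x ∈ L, ∀ᶠ n in atTop, ∃ o ∈ seg I n, isPos o ∧ num o = x := by
    intro x hx
    rw [← hP] at hx
    obtain ⟨j, hj⟩ := hx
    filter_upwards [eventually_gt_atTop j] with n hn
    exact ⟨some (x, true), mem_seg.2 ⟨j, hn, hj⟩, rfl, rfl⟩
  have hneg : ∀ x ∈ NegInfo I, ∀ᶠ n in atTop, ∃ o ∈ seg I n, isNeg o ∧ num o = x := by
    rintro x ⟨j, hj⟩
    filter_upwards [eventually_gt_atTop j] with n hn
    exact ⟨some (x, false), mem_seg.2 ⟨j, hn, hj⟩, rfl, rfl⟩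
  have hlen : ∀ n, (seg I n).length = n := by
    intro n
    simp [seg]
  -- the right guess passes
  have hm : ∀ᶠ n in atTop, QL φ (seg I n) m := by
    have h1 : ∀ᶠ n in atTop, ∀ l' ∈ Set.Iio m,
        ¬ (∀ o ∈ seg I n, isPos o → num o ∈ W φ l') ∨
          ∀ x < (seg I n).length, x ∉ W φ m ∨ x ∈ W φ l' := by
      refine (eventually_all_finite (Set.finite_Iio m)).2 fun l' _ => ?_
      by_cases h : L ⊆ W φ l'
      · filter_upwards with n
        refine Or.inr fun x _ => ?_
        by_cases hx : x ∈ W φ m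
        · exact Or.inr (h hx)
        · exact Or.inl hx
      · obtain ⟨x, hx, hx'⟩ := Set.not_subset.1 h
        filter_upwards [hpos x hx] with n hn
        obtain ⟨o, ho, ho1, rfl⟩ := hn
        exact Or.inl fun h' => hx' (h' o ho ho1)
    filter_upwards [h1] with n hn
    refine ⟨fun o ho hp => ?_, fun o ho hp => ?_, hn⟩
    · have := pos_seg ho hp
      rw [hP] at this
      exact this
    · exact hN _ (neg_seg ho hp)
  -- the wrong guesses fail
  have hbad : ∀ᶠ n in atTop, ∀ l ∈ Set.Iic m, (symmDiff (W φ l) L).Finite ∨ ¬ QL φ (seg I n) l := by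
    refine (eventually_all_finite (Set.finite_Iic m)).2 fun l hl => ?_
    by_cases hfin : (symmDiff (W φ l) L).Finite
    · filter_upwards with n
      exact Or.inl hfin
    · have hlm : l < m := by
        rcases (Set.mem_Iic.1 hl).eq_or_lt with h | h
        · exfalso
          apply hfin
          rw [h, hL, symmDiff_self]
          exact Set.finite_empty
        · exact h
      by_cases h1 : L ⊆ W φ l
      · by_cases h2 : ∀ l' < l, L ⊆ W φ l' → W φ l ⊆ W φ l'
        · have hCh : l ∈ Ch := Finset.mem_filter.2 ⟨Finset.mem_range.2 hlm, h1, hfin, h2⟩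
          obtain ⟨x, hxS, hx⟩ := hS3 l hCh
          filter_upwards [hneg x (hSI x hxS)] with n hn
          obtain ⟨o, ho, ho1, rfl⟩ := hn
          exact Or.inr fun h' => h'.2.1 o ho ho1 hx
        · push Not at h2
          obtain ⟨l', hl', h3, h4⟩ := h2
          obtain ⟨x, hx, hx'⟩ := Set.not_subset.1 h4
          filter_upwards [eventually_gt_atTop x] with n hn
          refine Or.inr fun h' => ?_
          rcases h'.2.2 l' hl' with h5 | h5
          · apply h5
            intro o ho hp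
            have := pos_seg ho hp
            rw [hP] at this
            exact h3 this
          · rcases h5 x (by rw [hlen]; exact hn) with h6 | h6
            · exact h6 hx
            · exact hx' h6
      · obtain ⟨x, hx, hx'⟩ := Set.not_subset.1 h1
        filter_upwards [hpos x hx] with n hn
        obtain ⟨o, ho, ho1, rfl⟩ := hn
        exact Or.inr fun h' => hx' (h'.1 o ho ho1)
  obtain ⟨N, hNN⟩ := eventually_atTop.1 (hm.and hbad)
  refine ⟨N, fun n hn => ?_⟩
  obtain ⟨h1, h2⟩ := hNN n hn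
  have hex : ∃ l, QL φ (seg I n) l := ⟨m, h1⟩
  have hl1 := Nat.find_spec hex
  have hl2 : Nat.find hex ≤ m := Nat.find_min' hex h1
  have h3 := finite_variant hW hM (seg I n) (Nat.find hex) hl1 fun l' hl' => Nat.find_min hex hl'
  rcases h2 (Nat.find hex) (Set.mem_Iic.2 hl2) with h4 | h4
  · exact symm_fin_trans h3 h4
  · exact absurd hl1 h4

end Main

/-- For every acceptable numbering and every `i ≥ 1` the class of all r.e. languages is in
`NegO^i TxtBc^*`. -/
theorem result : ∀ φ : ℕ → ℕ →. ℕ, Acceptable φ → ∀ i, 1 ≤ i → AllRE φ i := by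
  intro φ hφ i hi
  obtain ⟨c, hc⟩ := exists_code hφ.1
  have hW := mem_W hc
  obtain ⟨M, hM1, hM2⟩ := exists_learner hφ c
  refine ⟨M, hM1, fun L hL => ?_⟩
  obtain ⟨m, rfl⟩ := exists_index hφ hL
  exact identifies hW hM2 m i hi

end Pool.Agent.Results.MP_1b3940_lc.OneCounterexample
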